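import Pool.Agent.LibPavingRoots.Core

/-!
Every reliability root of a paving matroid lies in the closed unit disk.
The auxiliary set-family and analytic lemmas are in `Pool.Agent.LibPavingRoots.Core`.
-/

open Finset

namespace Pool.Agent.Results.MP_1ae31d_co.PavingRoots

open Pool.Agent.LibPavingRoots

section MatroidPart

open Polynomial

/-- `indepNum M k` is the number of independent sets of `M` with exactly `k` elements. -/
noncomputable def indepNum {α : Type*} (M : Matroid α) (k : ℕ) : ℕ :=
  {I : Set α | M.Indep I ∧ I.ncard = k}.ncard

/-- The reliability polynomial of a finite matroid `M` of rank `r` on `m` elements: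
`∑_{k=0}^{r} f_k q^k (1-q)^(m-k)`, where `f_k` is the number of independent sets of size `k`. -/
noncomputable def relPoly {α : Type*} (M : Matroid α) : Polynomial ℂ :=
  ∑ k ∈ Finset.range (M.eRank.toNat + 1),
    C (indepNum M k : ℂ) * X ^ k * (1 - X) ^ (M.E.ncard - k)

/-- A matroid is paving if every circuit has at least `rank` many elements. -/
def IsPaving {α : Type*} (M : Matroid α) : Prop :=
  ∀ C : Set α, M.IsCircuit C → M.eRank ≤ C.encard

variable {α : Type*}

lemma indepNum_eq (M : Matroid α) [M.Finite] (k : ℕ) [DecidablePred (fun A : Finset α => M.Indep (A : Set α))] :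
    indepNum M k = ((M.ground_finite.toFinset.powersetCard k).filter
      (fun A : Finset α => M.Indep (A : Set α))).card := by
  classical
  unfold indepNum
  rw [← Set.ncard_coe_finset, ← Set.ncard_image_of_injective _ Finset.coe_injective]
  congr 1
  ext I
  simp only [Set.mem_ofPred_eq, Finset.coe_filter, Finset.mem_powersetCard, Set.mem_image]
  constructor
  · rintro ⟨hI, hc⟩
    have hfin : I.Finite := M.ground_finite.subset hI.subset_ground
    refine ⟨hfin.toFinset, ⟨⟨?_, ?_⟩, ?_⟩, ?_⟩
    · exact Set.Finite.toFinset_subset_toFinset.mpr hI.subset_ground
    · rw [← Set.ncard_eq_toFinset_card I hfin]; exact hc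
    · simpa using hI
    · simp
  · rintro ⟨A, ⟨⟨hA, hAc⟩, hAI⟩, rfl⟩
    exact ⟨hAI, by rw [Set.ncard_coe_finset]; exact hAc⟩

lemma indep_of_card_lt {M : Matroid α} [M.Finite] (hM : IsPaving M) {A : Finset α}
    (hA : (A : Set α) ⊆ M.E) (hAc : A.card < M.eRank.toNat) : M.Indep (A : Set α) := by
  by_contra hcon
  have hdep : M.Dep (A : Set α) := by
    rw [← Matroid.not_indep_iff hA]; exact hcon
  obtain ⟨C, hCA, hC⟩ := hdep.exists_isCircuit_subset
  have h1 := hM C hC
  have h2 : C.encard ≤ (A : Set α).encard := Set.encard_le_encard hCA
  rw [Set.encard_coe_eq_coe_finsetCard] at h2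
  have h3 : M.eRank ≤ (A.card : ℕ∞) := h1.trans h2
  have h4 : M.eRank.toNat ≤ A.card := ENat.toNat_le_of_le_natCast h3
  omega

theorem result (M : Matroid α) [M.Finite] (hM : IsPaving M) (z : ℂ)
    (hz : (relPoly M).IsRoot z) : ‖z‖ ≤ 1 := by
  classical
  by_contra hz1
  push Not at hz1
  set E : Finset α := M.ground_finite.toFinset with hE
  have hEcoe : (E : Set α) = M.E := by simp [hE]
  set r := M.eRank.toNat with hr
  obtain ⟨B0, hB0⟩ := M.exists_isBase
  have hB0fin : B0.Finite := M.ground_finite.subset hB0.subset_ground
  have hB0r : hB0fin.toFinset.card = r := by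
    have h1 := hB0.encard_eq_eRank
    rw [hr, ← h1, hB0fin.encard_eq_coe_toFinset_card]
    simp
  have hB0E : hB0fin.toFinset ⊆ E := Set.Finite.toFinset_subset_toFinset.mpr hB0.subset_ground
  have hm : M.E.ncard = E.card := Set.ncard_eq_toFinset_card _ _
  set F := (E.powersetCard r).filter (fun A : Finset α => ¬ M.Indep (A : Set α)) with hFdef
  have hrm : r ≤ E.card := by
    rw [← hB0r]; exact Finset.card_le_card hB0E
  have hf1 : ∀ k, k < r → indepNum M k = E.card.choose k := by
    intro k hk
    rw [indepNum_eq, ← hE, Finset.filter_true_of_mem, Finset.card_powersetCard]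
    intro A hA
    rw [Finset.mem_powersetCard] at hA
    apply indep_of_card_lt hM
    · rw [← hEcoe]; exact_mod_cast hA.1
    · rw [hA.2]; exact hk
  have hf2 : indepNum M r + F.card = E.card.choose r := by
    rw [indepNum_eq, ← hE, hFdef, Finset.card_filter_add_card_filter_not, Finset.card_powersetCard]
  -- the family axioms
  have hFam : Fam E r F := by
    constructor
    · intro A hA
      rw [hFdef, Finset.mem_filter, Finset.mem_powersetCard] at hA
      exact hA.1
    · intro A hA B hB hAB C hC hCc
      rw [hFdef, Finset.mem_filter, Finset.mem_powersetCard] at hA hB ⊢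
      refine ⟨⟨hC.trans (Finset.union_subset hA.1.1 hB.1.1), hCc⟩, fun hCI => ?_⟩
      have hcap : (A ∩ B).card + 1 = r := by
        have := Finset.card_union_add_card_inter A B
        omega
      have hIsub : ((A ∩ B : Finset α) : Set α) ⊆ M.E := by
        rw [← hEcoe]
        exact_mod_cast Finset.inter_subset_left.trans hA.1.1
      have hI : M.Indep ((A ∩ B : Finset α) : Set α) := indep_of_card_lt hM hIsub (by omega)
      have hlt : ((A ∩ B : Finset α) : Set α).encard < (C : Set α).encard := by
        rw [Set.encard_coe_eq_coe_finsetCard, Set.encard_coe_eq_coe_finsetCard]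
        exact_mod_cast (by omega : (A ∩ B).card < C.card)
      obtain ⟨e, he, heI⟩ := hI.augment hCI hlt
      have heC : e ∈ C := by simpa using he.1
      have henotI : e ∉ A ∩ B := by
        intro h; exact he.2 (by simpa using h)
      have heU := hC heC
      rw [Finset.mem_union] at heU
      rcases heU with heA | heB
      · have : insert e (A ∩ B) = A := by
          apply Finset.eq_of_subset_of_card_le
          · intro y hy
            rw [Finset.mem_insert, Finset.mem_inter] at hy
            rcases hy with rfl | hy
            · exact heA
            · exact hy.1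
          · rw [Finset.card_insert_of_notMem henotI]; omega
        apply hA.2
        rw [← this, Finset.coe_insert]; exact heI
      · have : insert e (A ∩ B) = B := by
          apply Finset.eq_of_subset_of_card_le
          · intro y hy
            rw [Finset.mem_insert, Finset.mem_inter] at hy
            rcases hy with rfl | hy
            · exact heB
            · exact hy.2
          · rw [Finset.card_insert_of_notMem henotI]; omega
        apply hB.2
        rw [← this, Finset.coe_insert]; exact heI
  -- evaluate
  have heval : (relPoly M).eval z =
      ∑ k ∈ Finset.range (r + 1), (indepNum M k : ℂ) * z ^ k * (1 - z) ^ (E.card - k) := by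
    unfold relPoly
    rw [Polynomial.eval_finsetSum, ← hr, hm]
    apply Finset.sum_congr rfl
    intro k _
    simp
  have hz0 : (relPoly M).eval z = 0 := hz
  have h1z : (1 - z) ≠ 0 := by
    intro h
    have : z = 1 := by linear_combination -h
    rw [this] at hz1; simp at hz1
  rw [heval, Finset.sum_range_succ] at hz0
  have hsum1 : ∑ k ∈ Finset.range r, (indepNum M k : ℂ) * z ^ k * (1 - z) ^ (E.card - k)
      = ∑ k ∈ Finset.range r, (E.card.choose k : ℂ) * z ^ k * (1 - z) ^ (E.card - k) := by
    apply Finset.sum_congr rfl
    intro k hk
    rw [hf1 k (Finset.mem_range.mp hk)]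
  have hfr : (indepNum M r : ℂ) = (E.card.choose r : ℂ) - (F.card : ℂ) := by
    rw [← hf2]; push_cast; ring
  rw [hsum1, hfr] at hz0
  rcases Nat.eq_or_lt_of_le hrm with hrE | hrE
  · -- free matroid
    have hFempty : F.card = 0 := by
      rw [Finset.card_eq_zero]
      apply Finset.eq_empty_of_forall_notMem
      intro A hA
      rw [hFdef, Finset.mem_filter, Finset.mem_powersetCard] at hA
      have h1 : A = E := Finset.eq_of_subset_of_card_le hA.1.1 (by omega)
      have h2 : hB0fin.toFinset = E := Finset.eq_of_subset_of_card_le hB0E (by omega)
      apply hA.2
      rw [h1, ← h2]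
      simpa using hB0.indep
    have h3 : ∑ k ∈ Finset.range (r+1), (E.card.choose k : ℂ) * z ^ k * (1 - z) ^ (E.card - k) = 1 := by
      have h4 := add_pow z (1 - z) r
      rw [← hrE]
      have h5 : z + (1 - z) = 1 := by ring
      rw [h5, one_pow] at h4
      refine Eq.trans ?_ h4.symm
      apply Finset.sum_congr rfl
      intro k _
      ring
    rw [Finset.sum_range_succ] at h3
    rw [hFempty, Nat.cast_zero, sub_zero, h3] at hz0
    exact one_ne_zero hz0
  · obtain ⟨n, hn⟩ : ∃ n, E.card = r + n + 1 := ⟨E.card - r - 1, by omega⟩
    have hfact : PU n r z - F.card * z ^ r = 0 := by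
      have h6 : (1 - z) ^ (n+1) * (PU n r z - F.card * z ^ r) = 0 := by
        rw [← hz0, ← binom_identity n r z, hn, Finset.sum_range_succ _ r, mul_sub, mul_add, Finset.mul_sum]
        have h7 : ∀ k ∈ Finset.range r, (1 - z) ^ (n+1) * (((r + n + 1).choose k : ℂ) * z ^ k * (1 - z) ^ (r - k))
            = ((r + n + 1).choose k : ℂ) * z ^ k * (1 - z) ^ (r + n + 1 - k) := by
          intro k hk
          rw [Finset.mem_range] at hk
          rw [show r + n + 1 - k = (n+1) + (r - k) by omega, pow_add]
          ring
        rw [Finset.sum_congr rfl h7, show r + n + 1 - r = n + 1 by omega]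
        simp only [Nat.sub_self, pow_zero]
        ring
      exact (mul_eq_zero.mp h6).resolve_left (pow_ne_zero _ h1z)
    rcases Nat.eq_zero_or_pos r with hr0 | hrpos
    · -- rank zero
      have hF0 : F.card = 0 := by
        rw [Finset.card_eq_zero]
        apply Finset.eq_empty_of_forall_notMem
        intro A hA
        rw [hFdef, Finset.mem_filter, Finset.mem_powersetCard] at hA
        apply hA.2
        have : A = ∅ := Finset.card_eq_zero.mp (by omega)
        rw [this]; simp
      rw [hF0, Nat.cast_zero, zero_mul, sub_zero] at hfact
      exact PU_ne_zero n r z hz1 hfact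
    · obtain ⟨s, hs⟩ : ∃ s, r = s + 1 := ⟨r - 1, by omega⟩
      by_cases hcf : CF E r F
      · cases n with
        | zero =>
          have hF0 : F.card = 0 := by
            rw [Finset.card_eq_zero]
            apply Finset.eq_empty_of_forall_notMem
            intro A hA
            obtain ⟨hAs, hAc⟩ := hFam.sub A hA
            have hlt : 0 < (E \ A).card := by
              rw [Finset.card_sdiff_of_subset hAs]; omega
            obtain ⟨e, he⟩ := Finset.card_pos.mp hlt
            rw [Finset.mem_sdiff] at he
            obtain ⟨A', hA', hA'c, hA'F⟩ := hcf e he.1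
            have h8 : (E.erase e).card = r := by
              rw [Finset.card_erase_of_mem he.1]; omega
            have h9 : A' = E.erase e := Finset.eq_of_subset_of_card_le hA' (by omega)
            have h10 : A = E.erase e := by
              apply Finset.eq_of_subset_of_card_le
              · intro y hy
                rw [Finset.mem_erase]
                exact ⟨fun h => he.2 (h ▸ hy), hAs hy⟩
              · omega
            exact hA'F (by rw [h9, ← h10]; exact hA)
          rw [hF0, Nat.cast_zero, zero_mul, sub_zero] at hfact
          exact PU_ne_zero 0 r z hz1 hfact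
        | succ D =>
          have hb := fam_bound D r E F (by omega) hFam hcf
          rw [hs] at hb hfact
          exact PU_sub_ne_zero D s F.card hb z hz1 hfact
      · -- there is a coloop
        unfold CF at hcf
        push Not at hcf
        obtain ⟨e, heE, hall⟩ := hcf
        have hFeq : F = (E.erase e).powersetCard r := by
          ext A
          constructor
          · intro hA
            obtain ⟨hAs, hAc⟩ := hFam.sub A hA
            rw [Finset.mem_powersetCard]
            refine ⟨?_, hAc⟩
            intro y hy
            rw [Finset.mem_erase]
            refine ⟨?_, hAs hy⟩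
            rintro rfl
            -- y = e ∈ A, derive contradiction
            rw [hFdef, Finset.mem_filter] at hA
            apply hA.2
            have hAe : (A.erase y).card < r := by
              rw [Finset.card_erase_of_mem hy]; omega
            have hAesub : ((A.erase y : Finset α) : Set α) ⊆ M.E := by
              rw [← hEcoe]
              exact_mod_cast (Finset.erase_subset _ _).trans hAs
            have hI := indep_of_card_lt hM hAesub hAe
            have hlt : ((A.erase y : Finset α) : Set α).encard < B0.encard := by
              rw [Set.encard_coe_eq_coe_finsetCard, hB0fin.encard_eq_coe_toFinset_card, hB0r]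
              exact_mod_cast hAe
            obtain ⟨f, hf, hfI⟩ := hI.augment hB0.indep hlt
            have hfnot : f ∉ A.erase y := by
              intro h; exact hf.2 (by exact_mod_cast h)
            rw [← Finset.coe_insert] at hfI
            by_cases hfy : f = y
            · rw [hfy, Finset.insert_erase hy] at hfI
              exact hfI
            · exfalso
              have hfE : f ∈ E := by
                have := hB0.subset_ground hf.1
                rw [← hEcoe] at this
                exact_mod_cast this
              have := hall (insert f (A.erase y)) (by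
                intro w hw
                rw [Finset.mem_insert, Finset.mem_erase] at hw
                rw [Finset.mem_erase]
                rcases hw with rfl | hw
                · exact ⟨hfy, hfE⟩
                · exact ⟨hw.1, hAs hw.2⟩) (by
                rw [Finset.card_insert_of_notMem hfnot, Finset.card_erase_of_mem hy]; omega)
              rw [hFdef, Finset.mem_filter] at this
              exact this.2 hfI
          · intro hA
            rw [Finset.mem_powersetCard] at hA
            exact hall A hA.1 hA.2
        have hFc : F.card = (n + r).choose r := by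
          rw [hFeq, Finset.card_powersetCard, Finset.card_erase_of_mem heE, hn]
          congr 1; omega
        rw [hFc, hs] at hfact
        have h11 : PU n (s+1) z = PU n s z + ((n + (s+1)).choose (s+1) : ℂ) * z^(s+1) := by
          unfold PU; rw [Finset.sum_range_succ _ (s+1)]
        rw [h11] at hfact
        have h12 : PU n s z = 0 := by linear_combination hfact
        exact PU_ne_zero n s z hz1 h12

end MatroidPart

end Pool.Agent.Results.MP_1ae31d_co.PavingRoots
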